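import Mathlib
import Pool.Agent.H21.MSTDef
import Pool.Agent.H21.FREx

namespace Pool.Agent.Results.MP_620d87_co.Asym

open Pool.Agent.H21 Pool.Agent.H21.MST Matrix Finset

def cell (v : Fin 63) : Fin 6 := ⟨if v.val < 3 then v.val else 3 + (v.val - 3) / 20, by
  have := v.2; split_ifs <;> omega⟩

def r (u v : Fin 63) : Prop :=
  (u.val < 3 ∧ v.val = (u.val + 1) % 3) ∨ (u.val < 3 ∧ (cell v).val = u.val + 3) ∨
    (v.val < 3 ∧ (cell u).val = (v.val + 1) % 3 + 3) ∨
      (3 ≤ u.val ∧ u.val < 6 ∧ v.val = (u.val + 1) % 3 + 3)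
instance : DecidableRel r := fun _ _ => by unfold r; infer_instance

def Q : Fin 6 → Fin 6 → ℤ := ![![0, 1, -1, 20, -20, 0], ![-1, 0, 1, 0, 20, -20],
  ![1, -1, 0, -20, 0, 20], ![-1, 0, 1, 0, 0, 0], ![1, -1, 0, 0, 0, 0], ![0, 1, -1, 0, 0, 0]]

theorem quot : ∀ v c, (∑ w, if cell w = c then (if r v w then 1 else if r w v then -1 else 0 : ℤ)
    else 0) = Q (cell v) c := by decide +kernel

theorem mv (f : Fin 6 → ℂ) : (skew r).map Complex.ofReal *ᵥ (f ∘ cell) =
    (fun c => ∑ d, Q c d * f d) ∘ cell := by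
  ext v
  simp only [mulVec, dotProduct, Function.comp_apply, ← quot, Int.cast_sum, sum_mul]
  rw [sum_comm]
  refine sum_congr rfl fun w _ => ?_
  simp [skew, apply_ite Complex.ofReal]

noncomputable def τ : ℝ := 2 * Real.pi / (3 * √3)

theorem exp_map {V : Type} [Fintype V] [DecidableEq V] (A : Matrix V V ℝ) :
    (NormedSpace.exp A).map Complex.ofReal = NormedSpace.exp (A.map Complex.ofReal) := by
  have h1 : HasSum (fun n : ℕ => ((n.factorial : ℝ)⁻¹) • A ^ n) (NormedSpace.exp A) := by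
    letI : NormedRing (Matrix V V ℝ) := Matrix.linftyOpNormedRing
    letI : NormedAlgebra ℝ (Matrix V V ℝ) := Matrix.linftyOpNormedAlgebra
    exact NormedSpace.exp_series_hasSum_exp' (𝕂 := ℝ) A
  have h2 : HasSum (fun n : ℕ => ((n.factorial : ℂ)⁻¹) • A.map Complex.ofReal ^ n)
      (NormedSpace.exp (A.map Complex.ofReal)) := by
    letI : NormedRing (Matrix V V ℂ) := Matrix.linftyOpNormedRing
    letI : NormedAlgebra ℂ (Matrix V V ℂ) := Matrix.linftyOpNormedAlgebra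
    exact NormedSpace.exp_series_hasSum_exp' (𝕂 := ℂ) _
  have h3 := h1.map Complex.ofRealHom.mapMatrix
    (Continuous.matrix_map continuous_id Complex.continuous_ofReal)
  refine h3.unique ?_
  convert h2 using 2 with n
  rw [Function.comp_apply, RingHom.mapMatrix_apply, Matrix.map_smul' _ _ _ (map_mul _),
    ← RingHom.mapMatrix_apply, map_pow]
  simp
  rfl

def χ (ω : ℂ) : Fin 63 → ℂ := ![1, ω, ω ^ 2, 0, 0, 0] ∘ cell

theorem U_χ (k : ℕ) (ω : ℂ) (h : ω ^ 2 + ω + 1 = 0) (he : Complex.exp (τ * (ω - ω ^ 2)) = ω) :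
    (NormedSpace.exp ((k * τ) • skew r)).map Complex.ofReal *ᵥ χ ω = ω ^ (2 * k) • χ ω := by
  have h3 : ω ^ 3 = 1 := by linear_combination (ω - 1) * h
  have h0 : ω ≠ 0 := by rintro rfl; simp at h
  let F : ℤ → Fin 63 → ℂ := fun x => ![(ω - ω ^ 2) * x, (ω - ω ^ 2) * x * ω,
    (ω - ω ^ 2) * x * ω ^ 2, ω ^ 2 - 1, (ω ^ 2 - 1) * ω, (ω ^ 2 - 1) * ω ^ 2] ∘ cell
  have f : ∀ j : ℤ, (3 * j + 2 : ℂ) ^ 2 - (3 * j + 2) = 20 →
      (NormedSpace.exp ((k * τ) • skew r)).map Complex.ofReal *ᵥ F (3 * j + 2) =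
        ω ^ (2 * k) • F (3 * j + 2) := fun j hj => by
    rw [exp_map, FREx.exp_mulVec _ _ ((k * (3 * j + 2) : ℤ) * (τ * (ω - ω ^ 2)))]
    · rw [Complex.exp_int_mul, he, show (k * (3 * j + 2) : ℤ) = 3 * (k * j) + (2 * k : ℕ) by
        push_cast; ring, zpow_add₀ h0, _root_.zpow_mul, zpow_ofNat, h3, _root_.one_zpow, one_mul,
        zpow_natCast]
    · rw [Matrix.map_smul' _ _ _ Complex.ofReal_mul, smul_mulVec, mv]
      ext v
      simp only [F, Pi.smul_apply, Function.comp_apply, smul_eq_mul]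
      generalize cell v = c
      push_cast
      rw [show (k : ℂ) * (3 * j + 2) * (τ * (ω - ω ^ 2)) = k * τ * ((3 * j + 2) * (ω - ω ^ 2)) by
        ring, mul_assoc _ (_ * (_ - _))]
      congr 1
      generalize (3 * j + 2 : ℂ) = x at *
      fin_cases c <;> simp [Q, Fin.sum_univ_six] <;> grind
  have e : (9 * (ω - ω ^ 2)) • χ ω = F (3 * 1 + 2) - F (3 * (-2) + 2) := by
    ext v
    simp only [F, χ, Pi.smul_apply, Pi.sub_apply, Function.comp_apply, smul_eq_mul]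
    generalize cell v = c
    fin_cases c <;> simp <;> ring
  apply smul_right_injective _ (show 9 * (ω - ω ^ 2) ≠ 0 by intro h1; grind)
  simp only
  rw [← mulVec_smul, smul_comm _ (ω ^ _), e, mulVec_sub, f 1 (by norm_num), f (-2) (by norm_num),
    smul_sub]

def vtx (i : Fin 3) : Fin 63 := ⟨i, by omega⟩

theorem pst (k i : Fin 3) : PST r (vtx i) (vtx (i + k)) := by
  refine ⟨k * τ, 1, abs_one, ?_⟩
  have h3 : ((√3 : ℝ) : ℂ) ^ 2 = 3 := by exact_mod_cast Real.sq_sqrt (show (0 : ℝ) ≤ 3 by norm_num)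
  have h0 : ((√3 : ℝ) : ℂ) ≠ 0 := by exact_mod_cast (by positivity : (√3 : ℝ) ≠ 0)
  have hI := Complex.I_sq
  have g : ∀ e : ℂ, e = 1 ∨ e = -1 →
      Complex.exp (e * (2 * Real.pi / 3) * Complex.I) = (-1 + e * (√3 : ℝ) * Complex.I) / 2 := by
    have c : Complex.cos (2 * Real.pi / 3) = -1 / 2 := by
      have : Real.cos (2 * Real.pi / 3) = -1 / 2 := by
        rw [show 2 * Real.pi / 3 = Real.pi - Real.pi / 3 by ring, Real.cos_pi_sub,
          Real.cos_pi_div_three]; ring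
      exact_mod_cast congrArg Complex.ofReal this
    have s : Complex.sin (2 * Real.pi / 3) = (√3 : ℝ) / 2 := by
      have : Real.sin (2 * Real.pi / 3) = √3 / 2 := by
        rw [show 2 * Real.pi / 3 = Real.pi - Real.pi / 3 by ring, Real.sin_pi_sub,
          Real.sin_pi_div_three]
      exact_mod_cast congrArg Complex.ofReal this
    rintro e (rfl | rfl) <;> rw [Complex.exp_mul_I] <;> simp [c, s] <;> ring
  have u : ∀ e : ℂ, e = 1 ∨ e = -1 → _ := fun e he =>
    U_χ k ((-1 + e * (√3 : ℝ) * Complex.I) / 2) (by rcases he with rfl | rfl <;> grind) (by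
      conv_rhs => rw [← g e he]
      congr 1
      rw [show (-1 + e * (√3 : ℝ) * Complex.I) / 2 - ((-1 + e * (√3 : ℝ) * Complex.I) / 2) ^ 2 =
        e * (√3 : ℝ) * Complex.I by rcases he with rfl | rfl <;> grind, τ]
      push_cast; field_simp)
  have u1 := u 1 (.inl rfl)
  have u2 := u (-1) (.inr rfl)
  have hω : ((-1 + 1 * (√3 : ℝ) * Complex.I) / 2) ^ 2 + (-1 + 1 * (√3 : ℝ) * Complex.I) / 2 + 1 =
      0 := by grind
  rw [show (-1 + -1 * (√3 : ℝ) * Complex.I) / 2 = ((-1 + 1 * (√3 : ℝ) * Complex.I) / 2) ^ 2 by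
    grind] at u2
  generalize (-1 + 1 * (√3 : ℝ) * Complex.I) / 2 = ω at *
  have u0 : (NormedSpace.exp ((k * τ) • skew r)).map Complex.ofReal *ᵥ χ 1 = χ 1 := by
    rw [exp_map, FREx.exp_mulVec _ _ 0, Complex.exp_zero, one_smul]
    rw [Matrix.map_smul' _ _ _ Complex.ofReal_mul, smul_mulVec, χ, mv]
    ext v
    simp only [Pi.smul_apply, Function.comp_apply, smul_eq_mul]
    generalize cell v = c
    fin_cases c <;> simp [Q, Fin.sum_univ_six]
  have e : ∀ i : Fin 3, (3 : ℂ) • (Pi.single (vtx i) 1 : Fin 63 → ℂ) =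
      χ 1 + ω ^ (2 * i.val) • χ ω + (ω ^ 2) ^ (2 * i.val) • χ (ω ^ 2) := fun i => by
    have : ∀ (i : Fin 3) v, v = vtx i ↔ cell v = ⟨i, by omega⟩ := by decide +kernel
    ext v
    simp only [Pi.smul_apply, Pi.add_apply, Pi.single_apply, this, χ, Function.comp_apply]
    generalize cell v = c
    fin_cases i <;> fin_cases c <;> simp <;> grind
  have p := congrArg ((NormedSpace.exp ((k * τ) • skew r)).map Complex.ofReal *ᵥ ·) (e i)
  simp only [mulVec_add, mulVec_smul, u0, u1, u2, smul_smul, ← pow_add] at p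
  have q : ∀ x : ℂ, x ^ 3 = 1 → x ^ (2 * i.val + 2 * k.val) = x ^ (2 * (i + k).val) := by
    intro x hx
    fin_cases i <;> fin_cases k <;> simp <;> grind
  rw [q ω (by grind), q (ω ^ 2) (by grind), ← e] at p
  have p := smul_right_injective _ (three_ne_zero (α := ℂ)) p
  ext v
  have := congrFun p v
  simp only [mulVec_single_one, col_apply, map_apply, one_smul, Pi.single_apply] at this ⊢
  apply Complex.ofReal_injective
  rw [this]; split_ifs <;> simp

def T (v : Fin 63) : Prop := ∃ x, (r v x ∨ r x v) ∧ ∃ y, (r v y ∨ r y v) ∧ (r x y ∨ r y x) ∧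
  ∃ z, (r v z ∨ r z v) ∧ (r x z ∨ r z x) ∧ (r y z ∨ r z y)

theorem result : ∃ (V : Type) (_ : Fintype V) (_ : DecidableEq V) (r : V → V → Prop)
    (_ : DecidableRel r) (S : Finset V), (∀ u v, r u v → ¬ r v u) ∧ 3 ≤ S.card ∧
      (∀ a ∈ S, ∀ b ∈ S, a ≠ b → PST r a b) ∧
      ¬ ∃ P σ, Switching r P σ ∧ ∃ a ∈ S, PST r a (σ a) ∧ ∀ s ∈ S, ∃ k : ℕ, (σ ^ k) a = s := by
  refine ⟨Fin 63, inferInstance, inferInstance, r, inferInstance, univ.image vtx,
    by decide +kernel, by decide, fun a ha b hb _ => ?_, ?_⟩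
  · obtain ⟨i, -, rfl⟩ := mem_image.mp ha
    obtain ⟨j, -, rfl⟩ := mem_image.mp hb
    simpa using pst (j - i) i
  rintro ⟨P, σ, ⟨h1, h2⟩, a, -, -, h⟩
  have z : ∀ u v, skew r u v ≠ 0 ↔ (r u v ∨ r v u) := fun u v => by
    simp only [skew, of_apply]; split_ifs <;> simp [*]
  have adj : ∀ u v, (r (σ u) (σ v) ∨ r (σ v) (σ u)) ↔ (r u v ∨ r v u) := fun u v => by
    have : skew r u v = (P *ᵥ Pi.single u 1) ⬝ᵥ skew r *ᵥ P *ᵥ Pi.single v 1 := by
      conv_lhs => rw [← h2]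
      rw [← vecMul_transpose, ← dotProduct_mulVec, mulVec_mulVec, mulVec_mulVec, mulVec_single_one,
        single_one_dotProduct, col_apply]
    rw [← z, ← z u, this]
    rcases h1 u with e | e <;> rcases h1 v with e' | e' <;> rw [e, e'] <;> simp [mulVec_neg]
  have hT : ∀ v, T (σ v) ↔ T v := fun v => by
    constructor
    · rintro ⟨x, a, y, b, c, w, d⟩
      obtain ⟨x, rfl⟩ := σ.surjective x
      obtain ⟨y, rfl⟩ := σ.surjective y
      obtain ⟨w, rfl⟩ := σ.surjective w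
      simp only [adj] at a b c d
      exact ⟨x, a, y, b, c, w, d⟩
    · rintro ⟨x, a, y, b, c, w, d⟩
      exact ⟨σ x, (adj _ _).2 a, σ y, (adj _ _).2 b, (adj _ _).2 c, σ w, by simpa only [adj]⟩
  have hk : ∀ k : ℕ, T ((σ ^ k) a) ↔ T a := fun k => by
    induction k with
    | zero => rfl
    | succ k ih => rw [pow_succ', Equiv.Perm.mul_apply, hT, ih]
  obtain ⟨k0, e0⟩ := h 0 (by decide)
  obtain ⟨k1, e1⟩ := h 1 (by decide)
  have t0 : T 0 := ⟨3, by decide, 4, by decide, by decide, 5, by decide⟩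
  have t1 : ¬ T 1 := by unfold T; decide +kernel
  exact t1 (e1 ▸ (hk k1).mpr ((hk k0).mp (e0 ▸ t0)))

end Pool.Agent.Results.MP_620d87_co.Asym
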